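import Mathlib

/-!
# Sections of central extensions which are multiplicative on many subgroups
-/

set_option linter.unusedSectionVars false

namespace Pool.Agent.TH553.PF

open Subgroup

variable {X G : Type*} [Group X] [Group G]

/-- A map `A` from `G` to `X`, multiplicative up to the elements of `Z`, which commute with each other
and with all values of `A`. -/
structure Sec (A : G → X) (Z : Subgroup X) : Prop where
  one : A 1 = 1
  mul : ∀ g h, A g * A h * (A (g * h))⁻¹ ∈ Z
  comm : ∀ z ∈ Z, ∀ w ∈ Z, z * w = w * z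
  cent : ∀ z ∈ Z, ∀ g, z * A g = A g * z
  conj : ∀ g h, A (h * g * h⁻¹) = A h * A g * (A h)⁻¹
  pow : ∀ g, ∀ m : ℕ, A (g ^ m) = A g ^ m

variable {A : G → X} {Z : Subgroup X}

/-- The extension. -/
def Sec.E (h : Sec A Z) : Subgroup (X × G) where
  carrier := {e | e.1 * (A e.2)⁻¹ ∈ Z}
  one_mem' := by
    change (1 : X) * (A 1)⁻¹ ∈ Z
    rw [h.one, inv_one, mul_one]
    exact Z.one_mem
  mul_mem' := by
    intro a b ha hb
    change a.1 * b.1 * (A (a.2 * b.2))⁻¹ ∈ Z
    have h1 : a.1 * b.1 * (A (a.2 * b.2))⁻¹ =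
        (a.1 * (A a.2)⁻¹) * (b.1 * (A b.2)⁻¹) * (A a.2 * A b.2 * (A (a.2 * b.2))⁻¹) := by
      have h2 := h.cent _ hb a.2
      calc _ = a.1 * ((b.1 * (A b.2)⁻¹) * (A b.2 * (A (a.2 * b.2))⁻¹)) := by group
        _ = a.1 * ((A a.2)⁻¹ * (A a.2 * (b.1 * (A b.2)⁻¹)) * (A b.2 * (A (a.2 * b.2))⁻¹)) := by
          group
        _ = _ := by
          rw [← h2]
          group
    rw [h1]
    exact Z.mul_mem (Z.mul_mem ha hb) (h.mul _ _)
  inv_mem' := by
    intro a ha
    change a.1⁻¹ * (A a.2⁻¹)⁻¹ ∈ Z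
    have h1 : a.1⁻¹ * (A a.2⁻¹)⁻¹ = ((a.1 * (A a.2)⁻¹) * (A a.2⁻¹ * A a.2 *
        (A (a.2⁻¹ * a.2))⁻¹))⁻¹ := by
      have h2 := h.cent _ ha a.2⁻¹
      rw [inv_mul_cancel, h.one, inv_one, mul_one, ← mul_assoc, h2]
      group
    rw [h1]
    exact Z.inv_mem (Z.mul_mem ha (h.mul _ _))

theorem Sec.mem_E (h : Sec A Z) {e : X × G} : e ∈ h.E ↔ e.1 * (A e.2)⁻¹ ∈ Z := Iff.rfl

theorem Sec.exists_eq (h : Sec A Z) {e : X × G} (he : e ∈ h.E) : ∃ z ∈ Z, e.1 = z * A e.2 :=
  ⟨_, he, by group⟩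

/-- **A section which is compatible with conjugations and powers and multiplicative on subgroups of
coprime indices is multiplicative.** -/
theorem Sec.hom (h : Sec A Z)
    (hU : ∀ p : ℕ, p.Prime → ∃ U : Subgroup G, ¬ p ∣ U.index ∧
      ∀ a ∈ U, ∀ b ∈ U, A (a * b) = A a * A b) : ∀ g g', A (g * g') = A g * A g' := by
  classical
  let icg : CommGroup Z :=
    { (inferInstance : Group Z) with
      mul_comm := fun z w => Subtype.ext (h.comm z z.2 w w.2) }
  have key : ∀ U : Subgroup G, U.index ≠ 0 → (∀ a ∈ U, ∀ b ∈ U, A (a * b) = A a * A b) →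
      ∀ g g', (A g * A g' * (A (g * g'))⁻¹) ^ U.index = 1 := by
    intro U hi hm
    let pr : h.E →* G := (MonoidHom.snd X G).comp h.E.subtype
    have hsurj : Function.Surjective pr := fun g =>
      ⟨⟨(A g, g), by rw [h.mem_E]; simp⟩, rfl⟩
    let H : Subgroup h.E := U.comap pr
    have hHi : H.index = U.index := U.index_comap_of_surjective hsurj
    have hfin : H.FiniteIndex := ⟨by rw [hHi]; exact hi⟩
    let φ : H →* Z :=
      { toFun := fun e => ⟨(e : h.E).1.1 * (A (e : h.E).1.2)⁻¹, (e : h.E).2⟩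
        map_one' := by
          apply Subtype.ext
          change (1 : X) * (A 1)⁻¹ = 1
          rw [h.one, inv_one, mul_one]
        map_mul' := by
          intro a b
          apply Subtype.ext
          change (a : h.E).1.1 * (b : h.E).1.1 * (A ((a : h.E).1.2 * (b : h.E).1.2))⁻¹ =
            (a : h.E).1.1 * (A (a : h.E).1.2)⁻¹ * ((b : h.E).1.1 * (A (b : h.E).1.2)⁻¹)
          have h2 := h.cent _ (b : h.E).2 (a : h.E).1.2
          have h3 : A ((a : h.E).1.2 * (b : h.E).1.2) = A (a : h.E).1.2 * A (b : h.E).1.2 :=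
            hm _ a.2 _ b.2
          rw [h3, mul_inv_rev]
          calc _ = (a : h.E).1.1 * ((b : h.E).1.1 * (A (b : h.E).1.2)⁻¹ *
                (A (a : h.E).1.2)⁻¹) := by group
            _ = (a : h.E).1.1 * ((A (a : h.E).1.2)⁻¹ * (A (a : h.E).1.2 *
                ((b : h.E).1.1 * (A (b : h.E).1.2)⁻¹)) * (A (a : h.E).1.2)⁻¹) := by group
            _ = _ := by rw [← h2]; group }
    have hφ : ∀ e : H, (φ e : X) = (e : h.E).1.1 * (A (e : h.E).1.2)⁻¹ := fun e => rfl
    let s : G → h.E := fun g => ⟨(A g, g), by rw [h.mem_E]; simp⟩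
    -- the transfer of the section
    have ht1 : ∀ g, MonoidHom.transfer φ (s g) = 1 := by
      intro g
      let := H.fintypeQuotientOfFiniteIndex
      rw [MonoidHom.transfer_eq_prod_quotient_orbitRel_zpowers_quot]
      refine Finset.prod_eq_one fun q _ => ?_
      apply Subtype.ext
      rw [hφ]
      set m := Function.minimalPeriod (s g • ·) q.out with hm'
      obtain ⟨z, hz, hze⟩ := h.exists_eq (q.out.out : h.E).2
      set y : h.E := q.out.out with hy
      have h1 : ((y⁻¹ * s g ^ m * y : h.E) : X × G).1 = y.1.1⁻¹ * A g ^ m * y.1.1 := rfl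
      have h2 : ((y⁻¹ * s g ^ m * y : h.E) : X × G).2 = y.1.2⁻¹ * g ^ m * y.1.2 := rfl
      change ((y⁻¹ * s g ^ m * y : h.E) : X × G).1 * (A ((y⁻¹ * s g ^ m * y : h.E) : X × G).2)⁻¹ = 1
      rw [h1, h2, hze, mul_inv_eq_one]
      have h3 := h.conj (g ^ m) y.1.2⁻¹
      rw [inv_inv, h.pow] at h3
      have h5 : (A (y.1.2)⁻¹)⁻¹ * (A y.1.2)⁻¹ ∈ Z := by
        have h6 := Z.inv_mem (h.mul y.1.2 y.1.2⁻¹)
        rw [mul_inv_cancel, h.one, inv_one, mul_one, mul_inv_rev] at h6
        exact h6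
      have h7 := h.cent _ h5
      set a := A y.1.2
      set b := A y.1.2⁻¹
      set w := b⁻¹ * a⁻¹ with hw
      have h8 : b = a⁻¹ * w⁻¹ := by rw [hw]; group
      have h9 : w⁻¹ * A g ^ m = A g ^ m * w⁻¹ := by
        have h10 := h7 (g ^ m)
        rw [h.pow] at h10
        calc w⁻¹ * A g ^ m = w⁻¹ * (A g ^ m * w) * w⁻¹ := by group
          _ = _ := by rw [← h10]; group
      have h11 : z * A g ^ m = A g ^ m * z := by
        have h10 := h.cent _ hz (g ^ m)
        rwa [h.pow] at h10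
      rw [h3, h8]
      calc (z * a)⁻¹ * A g ^ m * (z * a) = a⁻¹ * z⁻¹ * (A g ^ m * z) * a := by group
        _ = a⁻¹ * A g ^ m * a := by rw [← h11]; group
        _ = a⁻¹ * (A g ^ m * w⁻¹) * w * a := by group
        _ = a⁻¹ * (w⁻¹ * A g ^ m) * w * a := by rw [← h9]
        _ = _ := by group
    intro g g'
    set c := A g * A g' * (A (g * g'))⁻¹ with hc
    have hcZ : c ∈ Z := h.mul g g'
    let ec : h.E := ⟨(c, 1), by
      rw [h.mem_E]
      change c * (A 1)⁻¹ ∈ Z
      rw [h.one, inv_one, mul_one]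
      exact hcZ⟩
    have hcc : ∀ e : h.E, ec * e = e * ec := by
      intro e
      obtain ⟨z, hz, hze⟩ := h.exists_eq e.2
      apply Subtype.ext
      refine Prod.ext ?_ ?_
      · change c * e.1.1 = e.1.1 * c
        rw [hze]
        calc c * (z * A e.1.2) = (c * z) * A e.1.2 := by group
          _ = z * (c * A e.1.2) := by rw [h.comm _ hcZ _ hz]; group
          _ = _ := by rw [h.cent _ hcZ]; group
      · change 1 * e.1.2 = e.1.2 * 1
        rw [one_mul, mul_one]
    have hs : s g * s g' = ec * s (g * g') := by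
      apply Subtype.ext
      refine Prod.ext ?_ ?_
      · change A g * A g' = c * A (g * g')
        rw [hc]
        group
      · change g * g' = 1 * (g * g')
        rw [one_mul]
    have htc := MonoidHom.transfer_eq_pow (H := H) φ ec (fun k g₀ _ => by
      have h1 : Commute (ec ^ k) g₀ := (show Commute ec g₀ from hcc g₀).pow_left k
      rw [mul_assoc, h1.eq, inv_mul_cancel_left])
    have h1 := congrArg (MonoidHom.transfer φ) hs
    rw [map_mul, map_mul, ht1, ht1, ht1, mul_one, mul_one, htc] at h1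
    have h2 := congrArg (Subtype.val : Z → X) h1
    rw [hφ] at h2
    have h3 : ((ec ^ H.index : h.E) : X × G) = (c ^ H.index, 1) := by
      have : ((ec ^ H.index : h.E) : X × G) = (ec : X × G) ^ H.index := rfl
      rw [this]
      change ((c, 1) : X × G) ^ H.index = _
      rw [Prod.pow_mk, one_pow]
    have h4 : (1 : X) = c ^ H.index * (A 1)⁻¹ := by
      have h5 : (1 : X) = ((ec ^ H.index : h.E) : X × G).1 *
        (A ((ec ^ H.index : h.E) : X × G).2)⁻¹ := h2
      rw [h3] at h5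
      exact h5
    rw [h.one, inv_one, mul_one, hHi] at h4
    exact h4.symm
  intro g g'
  by_contra hne
  have hc : A g * A g' * (A (g * g'))⁻¹ ≠ 1 := fun h1 => hne (mul_inv_eq_one.1 h1).symm
  set c := A g * A g' * (A (g * g'))⁻¹ with hcdef
  have ho : orderOf c ≠ 1 := fun h1 => hc (orderOf_eq_one_iff.1 h1)
  obtain ⟨p, hp, hpc⟩ := Nat.exists_prime_and_dvd ho
  obtain ⟨U, hU1, hU2⟩ := hU p hp
  have hi : U.index ≠ 0 := fun h1 => hU1 (by rw [h1]; exact dvd_zero p)
  exact hU1 (hpc.trans (orderOf_dvd_of_pow_eq_one (key U hi hU2 g g')))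

end Pool.Agent.TH553.PF
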