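import Pool.Agent.TH119.PT.Glue
import Pool.Agent.TH553.PF.Sec

/-!
# Patching representations of subgroups of coprime indices
-/

set_option linter.unusedSectionVars false

namespace Pool.Agent.TH553.PF

open Matrix Pool.Agent.TH119.OP Pool.Agent.TH119.PT

variable {G : Type*} [Group G] {n : ℕ} {k : Type*} [Field k] [CharZero k]

/-- **Patching.**  `N` is a normal subgroup contained in all `U j`; the `U j` cover the group and their
indices are coprime; `R j` are semisimple representations of the `U j` whose traces are given by one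
class function `t`, and such that the spans do not become smaller on `N`.  Then there is a representation
of the whole group, which is conjugate to `R j` on `U j`. -/
theorem patchB (N : Subgroup G) [N.Normal] {J : Type*} (U : J → Subgroup G) (hN : ∀ j, N ≤ U j)
    (R : J → G → Matrix (Fin n) (Fin n) k) (hPR : ∀ j, PR (U j) (R j)) (hss : ∀ j, SSR (U j) (R j))
    (hspan : ∀ j, spn (U j) (R j) ≤ spn N (R j)) (t : G → k) (ht : ∀ g a, t (g * a * g⁻¹) = t a)
    (htr : ∀ j, ∀ a ∈ U j, (R j a).trace = t a) (hcov : ∀ g, ∃ j, g ∈ U j)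
    (hidx : ∀ p : ℕ, p.Prime → ∃ j, ¬ p ∣ (U j).index) :
    ∃ A : G → Matrix (Fin n) (Fin n) k, PR ⊤ A ∧ SSR ⊤ A ∧ (∀ g, (A g).trace = t g) ∧
      ∀ j, ∃ M : GL (Fin n) k, ∀ g ∈ U j, A g = cj M (R j g) := by
  classical
  obtain ⟨j₀, -⟩ := hcov 1
  set τ := R j₀ with hτ
  have hτN : PR N τ := (hPR j₀).mono (hN j₀)
  have hτss : SSR N τ := (hss j₀).of_spn (hN j₀) (hspan j₀)
  set B := spn (U j₀) τ with hB
  have hBN : B = spn N τ := le_antisymm (hspan j₀) (spn_mono (hN j₀))
  -- alignment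
  have hal : ∀ j, ∃ M : GL (Fin n) k, (∀ g ∈ N, cj M (R j g) = τ g) ∧
      spn (U j) (fun g => cj M (R j g)) = B := by
    intro j
    refine align (hPR j₀) (hss j₀) (hN j₀) (hspan j₀) (hPR j) (hss j) (hN j) ?_ ?_
    · have h1 : Module.finrank k (spn (U j) (R j)) = Module.finrank k (spn N (R j)) := by
        rw [le_antisymm (hspan j) (spn_mono (hN j))]
      have h2 : spn (U j₀) τ = spn N τ := hBN
      rw [h1, h2]
      exact finrank_le ((hPR j).mono (hN j)) ((hss j).of_spn (hN j) (hspan j)) hτN fun g hg => by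
        rw [htr j g (hN j hg), htr j₀ g (hN j₀ hg)]
    · intro g hg
      rw [htr j g (hN j hg), htr j₀ g (hN j₀ hg)]
  choose M hM1 hM2 using hal
  set Q : J → G → Matrix (Fin n) (Fin n) k := fun j g => cj (M j) (R j g) with hQ
  have hQP : ∀ j, PR (U j) (Q j) := fun j => (hPR j).conj (M j)
  have hQB : ∀ j, ∀ g ∈ U j, Q j g ∈ B := fun j g hg => by
    rw [← hM2 j]
    exact mem_spn (R := Q j) g hg
  have hQt : ∀ j, ∀ g ∈ U j, (Q j g).trace = t g := fun j g hg => by
    rw [hQ]
    change (cj (M j) (R j g)).trace = t g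
    rw [trace_cj, htr j g hg]
  have hQN : ∀ j, ∀ g ∈ N, Q j g = τ g := hM1
  have hmulB : ∀ {x y}, x ∈ B → y ∈ B → x * y ∈ B := fun hx hy => (hPR j₀).mul_mem_spn hx hy
  -- uniqueness
  have huniq : ∀ {x y}, x ∈ B → y ∈ B → (∀ a ∈ N, (x * τ a).trace = (y * τ a).trace) → x = y := by
    intro x y hx hy h
    have h1 := hτN.eq_zero hτss (x := x - y) (by rw [← hBN]; exact Submodule.sub_mem _ hx hy)
      fun a ha => by rw [sub_mul, trace_sub, h a ha, sub_self]
    exact sub_eq_zero.1 h1
  have hQtr : ∀ j, ∀ g ∈ U j, ∀ a ∈ N, (Q j g * τ a).trace = t (g * a) := by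
    intro j g hg a ha
    rw [← hQN j a ha, ← (hQP j).mul g hg a (hN j ha), hQt j _ ((U j).mul_mem hg (hN j ha))]
  choose c hc using hcov
  set A : G → Matrix (Fin n) (Fin n) k := fun g => Q (c g) g with hA
  have hAQ : ∀ j, ∀ g ∈ U j, A g = Q j g := fun j g hg =>
    huniq (hQB _ _ (hc g)) (hQB j g hg) fun a ha => by
      rw [hQtr _ _ (hc g) a ha, hQtr j g hg a ha]
  have hAB : ∀ g, A g ∈ B := fun g => hQB _ _ (hc g)
  have hAtr : ∀ g, ∀ a ∈ N, (A g * τ a).trace = t (g * a) := fun g a ha => hQtr _ _ (hc g) a ha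
  have hA1 : A 1 = 1 := (hQP _).one
  have hAN : ∀ a ∈ N, A a = τ a := fun a ha => by rw [hAQ j₀ a (hN j₀ ha), hQN j₀ a ha]
  have hAinv : ∀ g, A g * A g⁻¹ = 1 := fun g => by
    rw [hAQ _ g⁻¹ ((U _).inv_mem (hc g))]
    exact (hQP _).mul_inv (hc g)
  have hAinv' : ∀ g, A g⁻¹ * A g = 1 := fun g => by
    rw [hAQ _ g⁻¹ ((U _).inv_mem (hc g))]
    exact (hQP _).inv_mul (hc g)
  have hAτ : ∀ g, ∀ a ∈ N, A g * τ a = τ (g * a * g⁻¹) * A g := by
    intro g a ha
    have ha' : g * a * g⁻¹ ∈ N := Subgroup.Normal.conj_mem inferInstance a ha g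
    have h1 : A g = Q (c g) g := rfl
    rw [h1, ← hQN (c g) a ha, ← hQN (c g) _ ha', ← (hQP _).mul _ (hc g) _ (hN _ ha),
      ← (hQP _).mul _ (hN _ ha') _ (hc g)]
    congr 1
    group
  -- the units
  let Au : G → (Matrix (Fin n) (Fin n) k)ˣ := fun g => ⟨A g, A g⁻¹, hAinv g, hAinv' g⟩
  have hAu : ∀ g, (Au g : Matrix (Fin n) (Fin n) k) = A g := fun g => rfl
  have hAui : ∀ g, ((Au g)⁻¹ : (Matrix (Fin n) (Fin n) k)ˣ) = Au g⁻¹ := fun g => by
    apply Units.ext
    rfl
  have hconj : ∀ g h, A (h * g * h⁻¹) = A h * A g * A h⁻¹ := by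
    intro g h
    refine huniq (hAB _) (hmulB (hmulB (hAB h) (hAB g)) (hAB _)) fun a ha => ?_
    have ha' : h⁻¹ * a * h ∈ N := by
      have := Subgroup.Normal.conj_mem (inferInstance : N.Normal) a ha h⁻¹
      rwa [inv_inv] at this
    have h1 : A h⁻¹ * τ a = τ (h⁻¹ * a * h) * A h⁻¹ := by
      have := hAτ h⁻¹ a ha
      rwa [inv_inv] at this
    have h2 : A h * A g * A h⁻¹ * τ a = A h * (A g * τ (h⁻¹ * a * h) * A h⁻¹) := by
      rw [mul_assoc (A h * A g) (A h⁻¹) (τ a), h1]
      simp only [mul_assoc]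
    have h3 : (A h * (A g * τ (h⁻¹ * a * h) * A h⁻¹)).trace = t (g * (h⁻¹ * a * h)) := by
      rw [Matrix.trace_mul_comm, mul_assoc, hAinv', mul_one, hAtr _ _ ha']
    rw [hAtr _ _ ha, h2, h3, ← ht h (g * (h⁻¹ * a * h))]
    congr 1
    group
  have hpow : ∀ g, ∀ m : ℕ, A (g ^ m) = A g ^ m := by
    intro g m
    induction m with
    | zero => rw [pow_zero, pow_zero, hA1]
    | succ m ih =>
      rw [pow_succ, pow_succ, ← ih]
      rw [hAQ (c g) (g ^ m * g) ((U _).mul_mem ((U _).pow_mem (hc g) m) (hc g)),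
        (hQP _).mul _ ((U _).pow_mem (hc g) m) _ (hc g), ← hAQ (c g) _ ((U _).pow_mem (hc g) m),
        ← hAQ (c g) _ (hc g)]
  let Z : Subgroup (Matrix (Fin n) (Fin n) k)ˣ :=
    { carrier := {z | (z : Matrix (Fin n) (Fin n) k) ∈ B ∧
        ∀ x ∈ B, (z : Matrix (Fin n) (Fin n) k) * x = x * z}
      one_mem' := ⟨by rw [Units.val_one, ← (hPR j₀).one]; exact mem_spn 1 (U j₀).one_mem,
        fun x _ => by rw [Units.val_one, one_mul, mul_one]⟩
      mul_mem' := by
        rintro z w ⟨hz1, hz2⟩ ⟨hw1, hw2⟩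
        refine ⟨by rw [Units.val_mul]; exact hmulB hz1 hw1, fun x hx => ?_⟩
        rw [Units.val_mul, mul_assoc, hw2 x hx, ← mul_assoc, hz2 x hx, mul_assoc]
      inv_mem' := by
        rintro z ⟨hz1, hz2⟩
        have hcomm : ∀ x ∈ B, (↑z⁻¹ : Matrix (Fin n) (Fin n) k) * x =
            x * (↑z⁻¹ : Matrix (Fin n) (Fin n) k) := fun x hx => by
          rw [Units.inv_mul_eq_iff_eq_mul, ← mul_assoc, hz2 x hx, mul_assoc, Units.mul_inv, mul_one]
        refine ⟨?_, hcomm⟩
        -- the subspace `B` is stable under multiplication by `z`, hence by its inverse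
        let f : B →ₗ[k] B :=
          { toFun := fun x => ⟨(z : Matrix (Fin n) (Fin n) k) * x, hmulB hz1 x.2⟩
            map_add' := fun x y => Subtype.ext (mul_add _ _ _)
            map_smul' := fun a x => Subtype.ext (mul_smul_comm _ _ _) }
        have hf : Function.Injective f := fun x y hxy => by
          have h1 : (z : Matrix (Fin n) (Fin n) k) * x = (z : Matrix (Fin n) (Fin n) k) * y :=
            congrArg Subtype.val hxy
          apply Subtype.ext
          exact (Units.mul_right_inj z).1 h1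
        have hs : Function.Surjective f := LinearMap.injective_iff_surjective.1 hf
        have h1B : (1 : Matrix (Fin n) (Fin n) k) ∈ B := by
          rw [← (hPR j₀).one]
          exact mem_spn 1 (U j₀).one_mem
        obtain ⟨x, hx⟩ := hs ⟨1, h1B⟩
        have h2 : (z : Matrix (Fin n) (Fin n) k) * x = 1 := congrArg Subtype.val hx
        have h3 : (↑z⁻¹ : Matrix (Fin n) (Fin n) k) = x := by
          rw [Units.inv_eq_of_mul_eq_one_right h2]
        change (↑z⁻¹ : Matrix (Fin n) (Fin n) k) ∈ B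
        rw [h3]
        exact x.2 }
  have hsec : Sec Au Z := by
    refine ⟨?_, ?_, ?_, ?_, ?_, ?_⟩
    · apply Units.ext
      rw [hAu, hA1, Units.val_one]
    · intro g h
      rw [hAui]
      have hmem : A g * A h * A (g * h)⁻¹ ∈ B := hmulB (hmulB (hAB _) (hAB _)) (hAB _)
      refine ⟨hmem, ?_⟩
      change ∀ x ∈ B, A g * A h * A (g * h)⁻¹ * x = x * (A g * A h * A (g * h)⁻¹)
      have h1 : ∀ a ∈ N, A g * A h * A (g * h)⁻¹ * τ a = τ a * (A g * A h * A (g * h)⁻¹) := by
        intro a ha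
        have ha1 : (g * h)⁻¹ * a * (g * h) ∈ N := by
          have := Subgroup.Normal.conj_mem (inferInstance : N.Normal) a ha (g * h)⁻¹
          rwa [inv_inv] at this
        have ha2 : h * ((g * h)⁻¹ * a * (g * h)) * h⁻¹ ∈ N :=
          Subgroup.Normal.conj_mem inferInstance _ ha1 h
        have e1 : A (g * h)⁻¹ * τ a = τ ((g * h)⁻¹ * a * (g * h)) * A (g * h)⁻¹ := by
          have := hAτ (g * h)⁻¹ a ha
          rwa [inv_inv] at this
        have e2 := hAτ h _ ha1
        have e3 := hAτ g _ ha2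
        calc A g * A h * A (g * h)⁻¹ * τ a = A g * (A h * τ ((g * h)⁻¹ * a * (g * h))) *
              A (g * h)⁻¹ := by rw [mul_assoc _ _ (τ a), e1]; simp only [mul_assoc]
          _ = (A g * τ (h * ((g * h)⁻¹ * a * (g * h)) * h⁻¹)) * A h * A (g * h)⁻¹ := by
              rw [e2]; simp only [mul_assoc]
          _ = τ (g * (h * ((g * h)⁻¹ * a * (g * h)) * h⁻¹) * g⁻¹) * (A g * A h * A (g * h)⁻¹) := by
              rw [e3]; simp only [mul_assoc]
          _ = _ := by
              congr 2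
              group
      intro x hx
      rw [hBN] at hx
      unfold spn at hx
      induction hx using Submodule.span_induction with
      | mem x hx =>
        obtain ⟨a, ha, rfl⟩ := hx
        exact h1 a ha
      | zero => rw [mul_zero, zero_mul]
      | add a b _ _ ha hb => rw [mul_add, add_mul, ha, hb]
      | smul s a _ ha => rw [mul_smul_comm, smul_mul_assoc, ha]
    · intro z hz w hw
      apply Units.ext
      rw [Units.val_mul, Units.val_mul]
      exact hz.2 _ hw.1
    · intro z hz g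
      apply Units.ext
      rw [Units.val_mul, Units.val_mul]
      exact hz.2 _ (hAB g)
    · intro g h
      apply Units.ext
      rw [Units.val_mul, Units.val_mul, hAui]
      exact hconj g h
    · intro g m
      apply Units.ext
      rw [Units.val_pow_eq_pow_val]
      exact hpow g m
  have hmul := hsec.hom fun p hp => by
    obtain ⟨j, hj⟩ := hidx p hp
    refine ⟨U j, hj, fun a ha b hb => ?_⟩
    apply Units.ext
    rw [Units.val_mul, hAu, hAu, hAu, hAQ j _ ((U j).mul_mem ha hb), hAQ j a ha, hAQ j b hb,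
      (hQP j).mul a ha b hb]
  refine ⟨A, ⟨hA1, fun a _ b _ => ?_⟩, ?_, fun g => ?_, fun j => ⟨M j, fun g hg => hAQ j g hg⟩⟩
  · have := congrArg Units.val (hmul a b)
    rwa [Units.val_mul] at this
  · intro W hW
    obtain ⟨W', h1, h2⟩ := hss j₀ W fun g hg x hx => by
      have h3 : R j₀ g ∈ spn (⊤ : Subgroup G) A := by
        have h4 : R j₀ g ∈ spn N τ := by
          rw [← hBN]
          exact mem_spn g hg
        have h5 : spn N τ ≤ spn (⊤ : Subgroup G) A := by
          unfold spn
          refine Submodule.span_mono ?_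
          rintro _ ⟨a, ha, rfl⟩
          exact ⟨a, trivial, hAN a ha⟩
        exact h5 h4
      exact spn_stable hW h3 x hx
    exact ⟨W', fun g _ x hx => spn_stable h1 (hAB g) x hx, h2⟩
  · exact hQt _ _ (hc g)

end Pool.Agent.TH553.PF
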