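import Pool.Agent.TH119.PT.Main
import Pool.Agent.TH553.PF.Brauer

/-!
# Patching Galois representations over finitely many fields of coprime degrees
-/

set_option linter.unusedSectionVars false
set_option linter.style.haveILetI false

namespace Pool.Agent.TH553.PF

open NumberField IsDedekindDomain Polynomial Matrix Topology Filter
open Pool.Agent.W401.Cheb (GK IsFrob IsInert)
open Pool.Agent.TH119.PT

variable {K : Type} [Field K] [NumberField K]
variable {n : ℕ} {k : Type} [Field k] [CharZero k] [TopologicalSpace k] [IsTopologicalRing k]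
  [T2Space k]

/-- **Patching.** -/
theorem main (P : HeightOneSpectrum (𝓞 K) → k[X]) {I : Type}
    (M : IntermediateField K (AlgebraicClosure K)) [FiniteDimensional K M] [IsGalois K M]
    (F : I → IntermediateField K (AlgebraicClosure K)) (hF : ∀ i, F i ≤ M)
    (ρ : ∀ i, (F i).fixingSubgroup →* GL (Fin n) k)
    (hcont : ∀ i, Continuous fun g => (ρ i g : Matrix (Fin n) (Fin n) k))
    (hss : ∀ i, Pool.Agent.TH119.OP.SS (ρ i))
    (hρ : ∀ i, ∃ T : Set (HeightOneSpectrum (𝓞 K)), T.Finite ∧ ∀ v ∉ T,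
      ∀ σ : (F i).fixingSubgroup, IsFrob v (σ : GK K) →
        (ρ i σ : Matrix (Fin n) (Fin n) k).charpoly = P v)
    (hspan : ∀ i, ∀ σ : (F i).fixingSubgroup, (ρ i σ : Matrix (Fin n) (Fin n) k) ∈
      Submodule.span k {x | ∃ τ : (F i).fixingSubgroup, (τ : GK K) ∈ M.fixingSubgroup ∧
        x = (ρ i τ : Matrix (Fin n) (Fin n) k)})
    (hcov : ∀ σ : GK K, ∃ i, ∃ τ : GK K, τ * σ * τ⁻¹ ∈ (F i).fixingSubgroup)
    (hidx : ∀ p : ℕ, p.Prime → ∃ i, ¬ p ∣ Module.finrank K (F i)) :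
    ∃ r : GK K →* GL (Fin n) k, Continuous (fun g => (r g : Matrix (Fin n) (Fin n) k)) ∧
      Pool.Agent.TH119.OP.SS r ∧ ∀ i, ∃ g : GL (Fin n) k, ∀ σ : (F i).fixingSubgroup,
        r σ = g⁻¹ * ρ i σ * g := by
  classical
  haveI : M.fixingSubgroup.Normal := IsGalois.fixingSubgroup_normal_of_isGalois M
  let R0 : I → GK K → Matrix (Fin n) (Fin n) k := fun i g =>
    if h : g ∈ (F i).fixingSubgroup then (ρ i ⟨g, h⟩ : Matrix (Fin n) (Fin n) k) else 0
  have hR0 : ∀ i, ∀ g (h : g ∈ (F i).fixingSubgroup), R0 i g = ρ i ⟨g, h⟩ :=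
    fun i g h => dif_pos h
  have hR0' : ∀ i, ∀ g : (F i).fixingSubgroup, R0 i (g : GK K) = ρ i g :=
    fun i g => hR0 i g g.2
  let U : I × GK K → Subgroup (GK K) := fun j =>
    (F j.1).fixingSubgroup.comap (MulAut.conj j.2).toMonoidHom
  have hU : ∀ j x, x ∈ U j ↔ j.2 * x * j.2⁻¹ ∈ (F j.1).fixingSubgroup := fun j x => Iff.rfl
  have hMF : ∀ i, M.fixingSubgroup ≤ (F i).fixingSubgroup := fun i =>
    IntermediateField.fixingSubgroup_antitone (hF i)
  have hNU : ∀ j, M.fixingSubgroup ≤ U j := fun j x hx => by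
    rw [hU]
    exact hMF _ (Subgroup.Normal.conj_mem inferInstance x hx j.2)
  have hUo : ∀ j, IsOpen (U j : Set (GK K)) := fun j =>
    Subgroup.isOpen_mono (hNU j) (IntermediateField.fixingSubgroup_isOpen M)
  let R : I × GK K → GK K → Matrix (Fin n) (Fin n) k := fun j x => R0 j.1 (j.2 * x * j.2⁻¹)
  have hR : ∀ j x, R j x = R0 j.1 (j.2 * x * j.2⁻¹) := fun j x => rfl
  have hPR0 : ∀ i, PR (F i).fixingSubgroup (R0 i) := by
    intro i
    refine ⟨?_, fun a ha b hb => ?_⟩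
    · rw [hR0 i 1 (one_mem _)]
      have h2 : ρ i ⟨1, one_mem _⟩ = 1 := map_one (ρ i)
      rw [h2, Units.val_one]
    · rw [hR0 i a ha, hR0 i b hb, hR0 i (a * b) (mul_mem ha hb), ← Units.val_mul,
        ← map_mul]
      rfl
  have hPR : ∀ j, PR (U j) (R j) := by
    intro j
    refine ⟨?_, fun a ha b hb => ?_⟩
    · rw [hR, mul_one, mul_inv_cancel, (hPR0 _).one]
    · rw [hR, hR, hR, ← (hPR0 _).mul _ ((hU _ _).1 ha) _ ((hU _ _).1 hb)]
      congr 1
      group
  have hssR : ∀ j, SSR (U j) (R j) := by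
    intro j W hW
    have hx : ∀ g ∈ (F j.1).fixingSubgroup, j.2⁻¹ * g * j.2 ∈ U j := fun g hg => by
      rw [hU]
      have : j.2 * (j.2⁻¹ * g * j.2) * j.2⁻¹ = g := by group
      rwa [this]
    obtain ⟨W', h1, h2⟩ := hss j.1 W fun g x hxW => by
      have h3 := hW _ (hx g g.2) x hxW
      have h4 : j.2 * (j.2⁻¹ * (g : GK K) * j.2) * j.2⁻¹ = g := by group
      rwa [hR, h4, hR0'] at h3
    refine ⟨W', fun g hg x hx => ?_, h2⟩
    rw [hR, hR0 _ _ ((hU _ _).1 hg)]
    exact h1 ⟨_, hg⟩ x hx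
  have hcR0 : ∀ i, ContinuousOn (R0 i) ((F i).fixingSubgroup : Set (GK K)) := by
    intro i
    rw [continuousOn_iff_continuous_domRestrict]
    refine (hcont i).congr fun g => ?_
    exact (hR0 i g g.2).symm
  have hcR : ∀ j, ContinuousOn (R j) (U j) := fun j =>
    (hcR0 j.1).comp (f := fun x => j.2 * x * j.2⁻¹) (by fun_prop) fun x hx => hx
  have htrc : ∀ j, ContinuousOn (fun g => (R j g).trace) (U j) := fun j =>
    (Continuous.matrix_trace continuous_id).comp_continuousOn (hcR j)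
  have hcompat : ∀ j j', ∀ g ∈ U j ⊓ U j', (R j g).trace = (R j' g).trace := by
    intro j j' g hg
    obtain ⟨Ti, hTi, hi⟩ := hρ j.1
    obtain ⟨Tj, hTj, hj⟩ := hρ j'.1
    refine eq_of_frob (U j ⊓ U j') ((hUo j).inter (hUo j')) (fun g => (R j g).trace)
      (fun g => (R j' g).trace) ((htrc j).mono fun x hx => hx.1)
      ((htrc j').mono fun x hx => hx.2) (Ti ∪ Tj) (hTi.union hTj) ?_ g hg
    intro v hv τ hτ hfr
    rw [Set.mem_union] at hv
    push Not at hv
    have h1 := (hU _ _).1 hτ.1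
    have h2 := (hU _ _).1 hτ.2
    rw [hR, hR, hR0 _ _ h1, hR0 _ _ h2]
    refine trace_of_charpoly ?_
    rw [hi v hv.1 ⟨_, h1⟩ ((Pool.Agent.W401.Frob.main K).2.2 v τ _ hfr),
      hj v hv.2 ⟨_, h2⟩ ((Pool.Agent.W401.Frob.main K).2.2 v τ _ hfr)]
  have hcov' : ∀ g, ∃ j, g ∈ U j := fun g => by
    obtain ⟨i, τ, h⟩ := hcov g
    exact ⟨(i, τ), h⟩
  choose c hc using hcov'
  have hspanR : ∀ j, spn (U j) (R j) ≤ spn M.fixingSubgroup (R j) := by
    intro j
    refine Submodule.span_le.2 ?_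
    rintro _ ⟨g, hg, rfl⟩
    have hg' := (hU j g).1 hg
    have h1 := hspan j.1 ⟨_, hg'⟩
    rw [SetLike.mem_coe, hR, hR0 _ _ hg']
    refine Submodule.span_mono ?_ h1
    rintro _ ⟨τ, hτ, rfl⟩
    have h2 : j.2⁻¹ * (τ : GK K) * j.2 ∈ M.fixingSubgroup := by
      have := Subgroup.Normal.conj_mem (inferInstance : M.fixingSubgroup.Normal) _ hτ j.2⁻¹
      rwa [inv_inv] at this
    refine ⟨_, h2, ?_⟩
    have h4 : j.2 * (j.2⁻¹ * (τ : GK K) * j.2) * j.2⁻¹ = τ := by group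
    rw [hR, h4, hR0']
  obtain ⟨A, hA, hAss, hAt, hAM⟩ := patchB M.fixingSubgroup U hNU R hPR hssR hspanR
    (fun g => (R (c g) g).trace) (fun g a => by
      have h1 : a ∈ U ((c (g * a * g⁻¹)).1, (c (g * a * g⁻¹)).2 * g) := by
        rw [hU]
        have h2 := hc (g * a * g⁻¹)
        rw [hU] at h2
        have h3 : (c (g * a * g⁻¹)).2 * g * a * ((c (g * a * g⁻¹)).2 * g)⁻¹ =
          (c (g * a * g⁻¹)).2 * (g * a * g⁻¹) * (c (g * a * g⁻¹)).2⁻¹ := by group
        rw [h3]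
        exact h2
      have h4 := hcompat _ _ a ⟨h1, hc a⟩
      change (R (c (g * a * g⁻¹)) (g * a * g⁻¹)).trace = (R (c a) a).trace
      have h5 : (c (g * a * g⁻¹)).2 * g * a * ((c (g * a * g⁻¹)).2 * g)⁻¹ =
          (c (g * a * g⁻¹)).2 * (g * a * g⁻¹) * (c (g * a * g⁻¹)).2⁻¹ := by group
      rw [← h4, hR, hR]
      dsimp only
      rw [h5]) (fun j a ha => hcompat _ _ a ⟨ha, hc a⟩) (fun g => ⟨c g, hc g⟩) (fun p hp => by
      obtain ⟨i, hi⟩ := hidx p hp
      refine ⟨(i, 1), ?_⟩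
      rwa [Subgroup.index_comap_of_surjective _ (MulAut.conj (1 : GK K)).surjective,
        ← IntermediateField.finrank_eq_fixingSubgroup_index])
  have hcA0 : ContinuousAt A 1 := by
    obtain ⟨g, hg⟩ := hAM (c 1)
    have h1 : ContinuousOn A (U (c 1)) := by
      refine ContinuousOn.congr (f := fun x => cj g (R (c 1) x)) ?_ hg
      unfold cj
      exact (continuousOn_const.mul (hcR (c 1))).mul continuousOn_const
    exact h1.continuousAt ((hUo _).mem_nhds (U _).one_mem)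
  have hcA : Continuous A := by
    rw [continuous_iff_continuousAt]
    intro g
    have h2 : A = (fun y => A g * y) ∘ A ∘ fun x => g⁻¹ * x := by
      funext x
      change A x = A g * A (g⁻¹ * x)
      rw [← hA.mul _ trivial _ trivial, mul_inv_cancel_left]
    rw [h2]
    refine ContinuousAt.comp (by fun_prop) ?_
    refine ContinuousAt.comp ?_ (by fun_prop)
    rw [inv_mul_cancel]
    exact hcA0
  let r' : GK K →* GL (Fin n) k := hA.hom.comp (Subgroup.topEquiv.symm.toMonoidHom)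
  have hr' : ∀ g, (r' g : Matrix (Fin n) (Fin n) k) = A g := fun g => rfl
  refine ⟨r', ?_, ?_, ?_⟩
  · simp only [hr']
    exact hcA
  · intro V hV
    obtain ⟨V', h3, h4⟩ := hAss V fun g _ x hx => hV g x hx
    exact ⟨V', fun g x hx => h3 g trivial x hx, h4⟩
  · intro i
    obtain ⟨g, hg⟩ := hAM (i, 1)
    refine ⟨g, fun σ => ?_⟩
    apply Units.ext
    have h1 : (σ : GK K) ∈ U (i, 1) := by
      rw [hU, one_mul, inv_one, mul_one]
      exact σ.2
    rw [hr', hg σ h1, hR, one_mul, inv_one, mul_one, hR0']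
    rfl

end Pool.Agent.TH553.PF
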